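import Pool.Agent.W957.CH.StmB

set_option autoImplicit false

namespace Pool.Agent.W99.CH.Basic

open Finset Pool.Agent.W957.CH

lemma transport {V : Type} [DecidableEq V] (n : ℕ) (c : ℕ → V)
    (hinj : ∀ i j, i < n → j < n → c i = c j → i = j) (Q : V → V → Prop)
    [DecidablePred (fun p : V × V => Q p.1 p.2)]
    [DecidablePred (fun p : ℕ × ℕ => Q (c p.1) (c p.2))] :
    ((img n c ×ˢ img n c).filter (fun p => Q p.1 p.2)).card =
      ((range n ×ˢ range n).filter (fun p => Q (c p.1) (c p.2))).card := by
  symm
  apply Finset.card_bij (fun p _ => (c p.1, c p.2))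
  · rintro ⟨i, j⟩ h
    simp only [mem_filter, mem_product, mem_range, img, mem_image] at h ⊢
    exact ⟨⟨⟨i, h.1.1, rfl⟩, ⟨j, h.1.2, rfl⟩⟩, h.2⟩
  · rintro ⟨i, j⟩ h ⟨i', j'⟩ h' e
    simp only [mem_filter, mem_product, mem_range, Prod.mk.injEq] at h h' e ⊢
    exact ⟨hinj _ _ h.1.1 h'.1.1 e.1, hinj _ _ h.1.2 h'.1.2 e.2⟩
  · rintro ⟨x, y⟩ h
    simp only [mem_filter, mem_product, mem_range, img, mem_image] at h
    obtain ⟨⟨⟨i, hi, rfl⟩, ⟨j, hj, rfl⟩⟩, hQ⟩ := h
    refine ⟨(i, j), ?_, rfl⟩
    simp only [mem_filter, mem_product, mem_range]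
    exact ⟨⟨hi, hj⟩, hQ⟩

/-- successor on the cycle -/
def nxt (n i : ℕ) : ℕ := if i + 1 < n then i + 1 else 0

lemma cons_iff {n i j : ℕ} (hi : i < n) (hj : j < n) :
    cons n i j ↔ j = nxt n i ∨ i = nxt n j := by
  unfold Pool.Agent.W957.CH.cons nxt
  split_ifs <;> omega

lemma card_cons (n : ℕ) (hn : 3 ≤ n)
    [DecidablePred (fun p : ℕ × ℕ => cons n p.1 p.2)] :
    ((range n ×ˢ range n).filter (fun p => cons n p.1 p.2)).card = 2 * n := by
  have h1 : (range n ×ˢ range n).filter (fun p => cons n p.1 p.2) =
      (range n).image (fun i => (i, nxt n i)) ∪ (range n).image (fun i => (nxt n i, i)) := by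
    ext ⟨i, j⟩
    simp only [mem_filter, mem_product, mem_range, mem_union, mem_image, Prod.mk.injEq]
    constructor
    · rintro ⟨⟨hi, hj⟩, h⟩
      rw [cons_iff hi hj] at h
      rcases h with h | h
      · exact Or.inl ⟨i, hi, rfl, h.symm⟩
      · exact Or.inr ⟨j, hj, h.symm, rfl⟩
    · rintro (⟨a, ha, rfl, rfl⟩ | ⟨a, ha, rfl, rfl⟩)
      · have hb : nxt n a < n := by
          unfold nxt
          split_ifs <;> omega
        exact ⟨⟨ha, hb⟩, (cons_iff ha hb).2 (Or.inl rfl)⟩
      · have hb : nxt n a < n := by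
          unfold nxt
          split_ifs <;> omega
        exact ⟨⟨hb, ha⟩, (cons_iff hb ha).2 (Or.inr rfl)⟩
  have h2 : Disjoint ((range n).image (fun i => (i, nxt n i)))
      ((range n).image (fun i => (nxt n i, i))) := by
    rw [Finset.disjoint_left]
    rintro ⟨i, j⟩ h h'
    simp only [mem_image, mem_range, Prod.mk.injEq] at h h'
    obtain ⟨a, ha, rfl, rfl⟩ := h
    obtain ⟨b, hb, hb1, hb2⟩ := h'
    subst hb2
    unfold nxt at hb1
    split_ifs at hb1 <;> omega
  rw [h1, Finset.card_union_of_disjoint h2, Finset.card_image_of_injective,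
    Finset.card_image_of_injective, Finset.card_range]
  · omega
  · intro a b h
    simp only [Prod.mk.injEq] at h
    exact h.2
  · intro a b h
    simp only [Prod.mk.injEq] at h
    exact h.1

lemma adj_of_cons {V : Type} {G : SimpleGraph V} {n : ℕ} {c : ℕ → V} (h : CR G n c)
    {i j : ℕ} (hi : i < n) (hj : j < n) (hc : cons n i j) : G.Adj (c i) (c j) := by
  unfold Pool.Agent.W957.CH.cons at hc
  rcases hc with rfl | rfl | ⟨rfl, rfl⟩ | ⟨rfl, rfl⟩
  · exact h.adj i hj
  · exact (h.adj j hi).symm
  · exact h.clo.symm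
  · exact h.clo

theorem t_CH2C : S_CH2C := by
  classical
  intro V _ G n c h
  constructor
  · unfold img
    rw [Finset.card_image_of_injOn, Finset.card_range]
    intro i hi j hj hij
    exact h.inj i j (Finset.mem_range.1 hi) (Finset.mem_range.1 hj) hij
  · have h1 : ed2 G (img n c) =
        ((range n ×ˢ range n).filter (fun p => G.Adj (c p.1) (c p.2))).card := by
      unfold ed2
      convert transport n c h.inj G.Adj
    have h2 := Finset.card_filter_add_card_filter_not
      (s := (range n ×ˢ range n).filter (fun p => G.Adj (c p.1) (c p.2)))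
      (fun p => cons n p.1 p.2)
    have h3 : ((range n ×ˢ range n).filter (fun p => G.Adj (c p.1) (c p.2))).filter
        (fun p => cons n p.1 p.2) = (range n ×ˢ range n).filter (fun p => cons n p.1 p.2) := by
      rw [Finset.filter_filter]
      apply Finset.filter_congr
      rintro ⟨i, j⟩ hp
      rw [mem_product, mem_range, mem_range] at hp
      constructor
      · exact fun q => q.2
      · exact fun q => ⟨adj_of_cons h hp.1 hp.2 q, q⟩
    have h4 := card_cons n h.three
    rw [h3, Finset.filter_filter] at h2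
    rw [h1, ← h2, h4]

theorem t_CL : S_CL := by
  intro V _ G n c h
  have h3 := h.three
  have e : sg c 0 (n - 1) = (List.range n).map c := by
    unfold sg
    rw [List.range_eq_range']
    congr 2
    omega
  rw [e]
  refine ⟨⟨?_, ⟨?_, ?_⟩, ?_⟩, ?_, ?_⟩
  · simpa using h3
  · rw [List.nodup_map_iff_inj_on List.nodup_range]
    intro x hx y hy hxy
    exact h.inj x y (List.mem_range.1 hx) (List.mem_range.1 hy) hxy
  · rw [List.isChain_iff_getElem]
    intro i hi
    simp only [List.getElem_map, List.getElem_range]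
    apply h.adj
    simpa using hi
  · intro a b ha hb
    rw [List.head?_map] at ha
    rw [List.getLast?_map] at hb
    have h5 : (List.range n).head? = some 0 := by
      rw [List.head?_range]
      simp
      omega
    have h6 : (List.range n).getLast? = some (n - 1) := by
      rw [List.getLast?_range]
      simp
      omega
    rw [h5] at ha
    rw [h6] at hb
    simp only [Option.map_some, Option.some.injEq] at ha hb
    rw [← ha, ← hb]
    exact h.clo
  · ext x
    simp [img]
  · simp

lemma nx_iff {V : Type} {l : List V} (hl : l.Nodup) {i j : ℕ} (hi : i < l.length)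
    (hj : j < l.length) :
    Nx l l[i] l[j] ↔ j = i + 1 ∨ (i = l.length - 1 ∧ j = 0) := by
  have hinj : ∀ a b (ha : a < l.length) (hb : b < l.length), l[a] = l[b] → a = b := by
    intro a b ha hb h
    exact (List.Nodup.getElem_inj_iff hl).1 h
  constructor
  · rintro (⟨l1, l2, h⟩ | ⟨h1, h2⟩)
    · left
      have hlen : l.length = l1.length + (l2.length + 1 + 1) := by
        conv_lhs => rw [h]
        simp
      have e1 : l[l1.length]'(by omega) = l[i] := by
        conv_lhs => rw [List.getElem_of_eq h]
        simp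
      have e2 : l[l1.length + 1]'(by omega) = l[j] := by
        conv_lhs => rw [List.getElem_of_eq h]
        simp
      have f1 := hinj _ _ _ _ e1
      have f2 := hinj _ _ _ _ e2
      omega
    · right
      rw [List.getLast?_eq_getElem?, List.getElem?_eq_getElem (by omega)] at h1
      rw [List.head?_eq_getElem?, List.getElem?_eq_getElem (by omega)] at h2
      have f1 := hinj _ _ _ _ (Option.some.inj h1)
      have f2 := hinj _ _ _ _ (Option.some.inj h2)
      omega
  · rintro (rfl | ⟨h1, h2⟩)
    · left
      refine ⟨l.take i, l.drop (i + 1 + 1), ?_⟩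
      rw [← List.drop_eq_getElem_cons hj, ← List.drop_eq_getElem_cons hi,
        List.take_append_drop]
    · right
      subst h2
      constructor
      · rw [List.getLast?_eq_getElem?, List.getElem?_eq_getElem (by omega)]
        congr 2
        omega
      · rw [List.head?_eq_getElem?, List.getElem?_eq_getElem (by omega)]

theorem t_LC : S_LC := by
  intro V _ G l hl
  obtain ⟨h3, ⟨hnd, hch⟩, hclo⟩ := hl
  have h0 : 0 < l.length := by omega
  have hc : ∀ i (h : i < l.length), l[i] = l.getD i l[0] := by
    intro i h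
    rw [List.getD_eq_getElem _ _ h]
  have hCR : CR G l.length (fun i => l.getD i l[0]) := by
    constructor
    · exact h3
    · intro i j hi hj hij
      simp only [← hc i hi, ← hc j hj] at hij
      exact (List.Nodup.getElem_inj_iff hnd).1 hij
    · intro i hi
      simp only [← hc i (by omega), ← hc (i + 1) hi]
      rw [List.isChain_iff_getElem] at hch
      exact hch i hi
    · simp only [← hc (l.length - 1) (by omega), ← hc 0 h0]
      apply hclo
      · rw [List.head?_eq_getElem?, List.getElem?_eq_getElem h0]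
      · rw [List.getLast?_eq_getElem?, List.getElem?_eq_getElem (by omega)]
  refine ⟨fun i => l.getD i l[0], hCR, ?_, hc, ?_⟩
  · ext x
    simp only [img, mem_image, mem_range, List.mem_toFinset]
    constructor
    · rintro ⟨i, hi, rfl⟩
      rw [← hc i hi]
      exact List.getElem_mem hi
    · intro hx
      obtain ⟨i, hi, rfl⟩ := List.mem_iff_getElem.1 hx
      exact ⟨i, hi, (hc i hi).symm⟩
  · intro i j hi hj
    simp only [← hc i hi, ← hc j hj]
    unfold CA Pool.Agent.W957.CH.cons
    rw [nx_iff hnd hi hj, nx_iff hnd hj hi]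
    omega

theorem t_CH2L (h1 : S_CH2C) (h2 : S_LC) : S_CH2L := by
  classical
  intro V _ G l hl
  obtain ⟨c, hCR, himg, hc, hCA⟩ := h2 V G l hl
  obtain ⟨g1, g2⟩ := h1 V G l.length c hCR
  rw [himg] at g1 g2
  refine ⟨g1, ?_⟩
  rw [g2]
  congr 1
  have h3 := transport l.length c hCR.inj (fun x y => G.Adj x y ∧ ¬ CA l x y)
  rw [himg] at h3
  have h4 : ((range l.length ×ˢ range l.length).filter
      (fun p => G.Adj (c p.1) (c p.2) ∧ ¬ Pool.Agent.W957.CH.cons l.length p.1 p.2)) =
      ((range l.length ×ˢ range l.length).filter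
      (fun p => G.Adj (c p.1) (c p.2) ∧ ¬ CA l (c p.1) (c p.2))) := by
    apply Finset.filter_congr
    rintro ⟨i, j⟩ hp
    rw [mem_product, mem_range, mem_range] at hp
    rw [hCA i j hp.1 hp.2]
  have h5 : ((range l.length ×ˢ range l.length).filter
      (fun p => G.Adj (c p.1) (c p.2) ∧ ¬ Pool.Agent.W957.CH.cons l.length p.1 p.2)).card =
      ((l.toFinset ×ˢ l.toFinset).filter (fun p => G.Adj p.1 p.2 ∧ ¬ CA l p.1 p.2)).card := by
    rw [h4]
    convert h3.symm
  convert h5

end Pool.Agent.W99.CH.Basic
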